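import Mathlib
import Pool.Agent.N222.D.ESTD
import Pool.Agent.TH841.TR.ATX

/-!
# Project D (helper870), ATX: the refined bound without ZZ
(a modification of TH841/TR/ATX.lean)
-/

set_option autoImplicit false

namespace Pool.Agent.N222.D

open Finset Polynomial Pool.Agent.W262.RK Pool.Agent.W262.RK.AT Pool.Agent.TH841.PT
  Pool.Agent.TH841.TR Pool.Agent.N870.D

open Pool.Agent.TH841.PT.ATS8 (Bd HG exp_Sp_le Sp_nonneg gh_nonneg cs_any cs_low gp_le_hh gp_one
  triv pair_case)

/-- the refined bound for small weights -/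
def ATX1 : Prop := ∀ (ι : Type) [Fintype ι] [DecidableEq ι] (a b : ι → ℕ → ℝ) (L : ι → ι → Bool)
  (Z : Finset ι) (c z : ℕ) (δ C0 E0 : ℝ) (M : ℕ → ℝ),
  (∀ i p, b i p ≤ 1 / 2) → HypD a b L Z c z δ C0 E0 M →
  ∃ C : ℝ, ∀ y, z < y →
    |∑ d ∈ Tup ι z y, (∏ i, gp (a i) c (d i)) * Sym L (fun _ => 1) d| ≤ C * Real.exp (M y)

variable {ι : Type} [Fintype ι] [DecidableEq ι]

section

variable {a b : ι → ℕ → ℝ} {L : ι → ι → Bool} {c z : ℕ} {C E0 : ℝ} {M : ℕ → ℝ}

variable {Z : Finset ι} {δ C0 : ℝ}

/-- the final case -/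
lemma gd_finD (hml : MLD) (hB : Bd a b (fun _ => 1) c z C E0) (hb : ∀ i p, b i p ≤ 1 / 2)
    (h : HypD a b L Z c z δ C0 E0 M) (A : ℕ) (π : ι → Option (Fin 4))
    (hπ : ∀ i, π i = none ∨ π i = some 0 ∨ π i = some 1)
    (hF : ∀ i j, π i = none → π j = none → L i j = L j i)
    (hBB : (∀ y, z < y → BB b L Z z (univ.filter (fun i => π i = none))
        (univ.filter (fun i => π i = some 1)) y ≤ M y + C0 - δ * Real.log (Real.log y)) ∨
      (∀ i, π i ≠ some 1)) : Gd a L c z M A π := by
  classical
  have hcz : c ≤ z := by have := hB.zc; omega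
  have hC0 : 0 ≤ C := zero_le_one.trans hB.C1
  obtain ⟨C2, N, hC2, h2⟩ := hml ι a b L Z c z δ C0 E0 M hb h
  set m := Fintype.card ι with hm
  obtain ⟨C1, hC1, h1⟩ := log_VV_pow_le A (m + N) h.hδ
  set F := univ.filter (fun i => π i = none) with hFd
  set W := univ.filter (fun i => π i = some 1) with hWd
  have hFu : ∀ i ∈ F, ∀ j ∈ F, L i j = L j i := fun i hi j hj =>
    hF i j (mem_filter.1 hi).2 (mem_filter.1 hj).2
  have key : ∀ y, z < y → ∀ e ∈ Fintype.piFinset (fun i => if i ∈ F then {1} else
        oc z y (VV A (Real.log y)) (YY A (Real.log y)) (π i)),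
      |∑ d ∈ Fintype.piFinset (fun i => if i ∈ F then
        oc z y (VV A (Real.log y)) (YY A (Real.log y)) (π i) else {e i}),
        HG a L (fun _ => 1) c d| ≤
      (∏ i ∈ Fᶜ, gp (b i) c (e i)) * (C2 * (if W = ∅ then 1 else
        (1 + m * Real.log (VV A (Real.log y))) ^ N) * Real.exp (BB b L Z z F W y)) := by
    intro y hy e he
    set V := VV A (Real.log y) with hV
    set Y := YY A (Real.log y) with hY
    have hV3 : 3 ≤ V := three_le_VV _ _
    rw [Fintype.mem_piFinset] at he
    have hkind : ∀ i, i ∉ F → (π i = some 0 ∧ e i = 1) ∨ (π i = some 1 ∧ 1 < e i ∧ e i ≤ V) := by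
      intro i hi
      have h3 := he i
      rw [if_neg hi] at h3
      rcases hπ i with h4 | h4 | h4
      · exact absurd (mem_filter.2 ⟨mem_univ i, h4⟩) hi
      · left
        rw [h4] at h3
        exact ⟨h4, cell_zero h3⟩
      · right
        rw [h4] at h3
        exact ⟨h4, cell_one h3⟩
    have hdv : ∀ i, e i ∈ (PP z y).divisors := by
      intro i
      have h3 := he i
      by_cases hi : i ∈ F
      · rw [if_pos hi, mem_singleton] at h3
        rw [h3]
        exact one_mem_dv z y
      · rw [if_neg hi] at h3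
        exact oc_sub _ _ _ _ _ h3
    have hW : Fᶜ.filter (fun w => e w ≠ 1) = W := by
      ext i
      constructor
      · intro h0
        obtain ⟨h3, h4⟩ := mem_filter.1 h0
        rcases hkind i (mem_compl.1 h3) with h5 | h5
        · exact absurd h5.2 h4
        · exact mem_filter.2 ⟨mem_univ i, h5.1⟩
      · intro h0
        have h4 := (mem_filter.1 h0).2
        have h3 : i ∉ F := by
          intro h3
          have := (mem_filter.1 h3).2
          rw [h4] at this
          exact absurd this (by simp)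
        refine mem_filter.2 ⟨mem_compl.2 h3, ?_⟩
        rcases hkind i h3 with h5 | h5
        · rw [h4] at h5
          exact absurd h5.1 (by decide)
        · omega
    have hs : (fun i => if i ∈ F then oc z y V Y (π i) else {e i}) =
        (fun i => if i ∈ F then (PP z y).divisors else {e i}) := by
      funext i
      by_cases hi : i ∈ F
      · rw [if_pos hi, if_pos hi, (mem_filter.1 hi).2]
        rfl
      · rw [if_neg hi, if_neg hi]
    rw [hs]
    have h3 := h2 y hy F hFu e hdv
    have hP0 : 0 ≤ ∏ i ∈ Fᶜ, gp (b i) c (e i) :=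
      prod_nonneg fun i _ => ATS8.gp_nonneg (hB.w0 i) hcz (hdv i)
    refine h3.trans (mul_le_mul_of_nonneg_left ?_ hP0)
    rw [hW]
    unfold BB
    refine mul_le_mul_of_nonneg_right ?_ (Real.exp_pos _).le
    refine mul_le_mul_of_nonneg_left ?_ hC2
    by_cases hWe : W = ∅
    · rw [if_pos hWe]
      have h4 : ∏ i ∈ Fᶜ, e i = 1 := by
        apply prod_eq_one
        intro i hi
        by_contra hne
        have : i ∈ W := by
          rw [← hW]
          exact mem_filter.2 ⟨hi, hne⟩
        rw [hWe] at this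
        exact absurd this (notMem_empty i)
      rw [h4]
      simp
    · rw [if_neg hWe]
      have h4 : Real.log ((∏ i ∈ Fᶜ, e i : ℕ) : ℝ) ≤ m * Real.log V := by
        rw [← Real.log_pow]
        apply Real.log_le_log
        · exact_mod_cast prod_pos fun i _ => dv_pos (hdv i)
        · have h5 : ∏ i ∈ Fᶜ, e i ≤ V ^ m := by
            calc ∏ i ∈ Fᶜ, e i ≤ ∏ i ∈ Fᶜ, V := by
                  apply prod_le_prod'
                  intro i hi
                  rcases hkind i (mem_compl.1 hi) with h5 | h5
                  · omega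
                  · exact h5.2.2
              _ = V ^ Fᶜ.card := by rw [prod_const]
              _ ≤ V ^ m := Nat.pow_le_pow_right (by omega)
                  ((card_le_card (subset_univ _)).trans (le_of_eq card_univ))
          exact_mod_cast h5
      apply pow_le_pow_left₀ (by
        have := Real.log_natCast_nonneg (∏ i ∈ Fᶜ, e i)
        linarith)
      linarith
  refine ⟨C2 + C ^ m * C2 * (m + 1) ^ N * C1 * Real.exp C0, fun y hy => ?_⟩
  have hly := one_le_log hB.z2 hy
  have hly0 : 0 < Real.log y := by linarith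
  have hkey := key y hy
  set l := Real.log y with hl
  set V := VV A l with hV
  set Y := YY A l with hY
  have hV3 : 3 ≤ V := three_le_VV A l
  have hlV : 1 ≤ Real.log V := one_le_log_VV A l
  rw [split_two F]
  refine (abs_sum_le_sum_abs _ _).trans ((sum_le_sum hkey).trans ?_)
  rw [← sum_mul, prod_two F (fun i => oc z y V Y (π i)) (fun i m => gp (b i) c m)]
  have hm0 : (0 : ℝ) ≤ m := Nat.cast_nonneg m
  by_cases hWe : W = ∅
  · -- no small variables
    rw [if_pos hWe]
    have h3 : ∏ i ∈ Fᶜ, ∑ m ∈ oc z y V Y (π i), gp (b i) c m ≤ 1 := by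
      apply prod_le_one
      · intro i _
        exact sum_nonneg fun m hm => ATS8.gp_nonneg (hB.w0 i) hcz (oc_sub _ _ _ _ _ hm)
      · intro i hi
        have h4 : π i = some 0 := by
          rcases hπ i with h4 | h4 | h4
          · exact absurd (mem_filter.2 ⟨mem_univ i, h4⟩) (mem_compl.1 hi)
          · exact h4
          · have : i ∈ W := mem_filter.2 ⟨mem_univ i, h4⟩
            rw [hWe] at this
            exact absurd this (notMem_empty i)
        rw [h4]
        calc ∑ m ∈ cell z y V Y 0, gp (b i) c m ≤ ∑ m ∈ ({1} : Finset ℕ), gp (b i) c m := by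
              apply sum_le_sum_of_subset_of_nonneg
              · intro m hm
                rw [mem_singleton]
                exact cell_zero hm
              · intro m hm _
                rw [mem_singleton] at hm
                rw [hm, gp_one]
                exact zero_le_one
          _ = 1 := by rw [sum_singleton, gp_one]
    have h4 : BB b L Z z F W y ≤ M y := by
      have h5 := h.CA y hy F hFu
      unfold BB
      rw [hWe]
      simpa using h5
    have h5 := Real.exp_le_exp.2 h4
    have h6 : 0 ≤ C2 * 1 * Real.exp (BB b L Z z F W y) := by positivity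
    calc _ ≤ 1 * (C2 * 1 * Real.exp (BB b L Z z F W y)) := mul_le_mul_of_nonneg_right h3 h6
      _ ≤ C2 * Real.exp (M y) := by
          rw [one_mul, mul_one]
          exact mul_le_mul_of_nonneg_left h5 hC2
      _ ≤ _ := by
          apply mul_le_mul_of_nonneg_right _ (Real.exp_pos _).le
          have : 0 ≤ C ^ m * C2 * (m + 1) ^ N * C1 * Real.exp C0 := by positivity
          linarith
  · rw [if_neg hWe]
    have hBB' : BB b L Z z F W y ≤ M y + C0 - δ * Real.log l := by
      rcases hBB with h3 | h3
      · exact h3 y hy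
      · exfalso
        apply hWe
        rw [hWd, filter_eq_empty_iff]
        intro i _
        exact h3 i
    have hCl : 1 ≤ C * Real.log V := by nlinarith [hB.C1]
    have h3 : ∏ i ∈ Fᶜ, ∑ m ∈ oc z y V Y (π i), gp (b i) c m ≤ (C * Real.log V) ^ m := by
      calc ∏ i ∈ Fᶜ, ∑ m ∈ oc z y V Y (π i), gp (b i) c m ≤ ∏ i ∈ Fᶜ, (C * Real.log V) := by
            apply prod_le_prod
            · intro i _
              exact sum_nonneg fun m hm => ATS8.gp_nonneg (hB.w0 i) hcz (oc_sub _ _ _ _ _ hm)
            · intro i hi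
              have h5 : ∀ r : Fin 4, r ≠ 3 → r ≠ 2 →
                  ∑ m ∈ oc z y V Y (some r), gp (b i) c m ≤ C * Real.log V := by
                intro r hr hr2
                calc ∑ m ∈ cell z y V Y r, gp (b i) c m
                    ≤ ∑ m ∈ cell z y V Y r, gp (b i) c m * hh m :=
                      sum_le_sum fun m hm => gp_le_hh hB i (cell_sub _ _ _ _ _ hm)
                  _ ≤ C * (if r = 2 then Real.exp (Sp (b i) z y) else Real.log V) :=
                      cs_low hB hy hV3 i hr
                  _ = C * Real.log V := by rw [if_neg hr2]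
              rcases hπ i with h4 | h4 | h4
              · exact absurd (mem_filter.2 ⟨mem_univ i, h4⟩) (mem_compl.1 hi)
              · rw [h4]
                exact h5 0 (by decide) (by decide)
              · rw [h4]
                exact h5 1 (by decide) (by decide)
        _ = (C * Real.log V) ^ Fᶜ.card := by rw [prod_const]
        _ ≤ _ := pow_le_pow_right₀ hCl ((card_le_card (subset_univ _)).trans (le_of_eq card_univ))
    have h4 : (1 + m * Real.log V) ^ N ≤ ((m : ℝ) + 1) ^ N * (Real.log V) ^ N := by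
      rw [← mul_pow]
      apply pow_le_pow_left₀ (by positivity)
      nlinarith
    have h5 : (Real.log V) ^ (m + N) ≤ C1 * l ^ δ := h1 l hly
    have h6 : Real.exp (BB b L Z z F W y) ≤ Real.exp (M y) * Real.exp C0 * (l ^ δ)⁻¹ := by
      have h7 : (l ^ δ)⁻¹ = Real.exp (-(δ * Real.log l)) := by
        rw [Real.rpow_def_of_pos hly0, ← Real.exp_neg, mul_comm]
      rw [h7, ← Real.exp_add, ← Real.exp_add]
      apply Real.exp_le_exp.2
      linarith
    have hld : 0 < l ^ δ := Real.rpow_pos_of_pos hly0 _
    have hprod0 : 0 ≤ C2 * (1 + m * Real.log V) ^ N * Real.exp (BB b L Z z F W y) := by positivity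
    calc _ ≤ (C * Real.log V) ^ m * (C2 * (1 + m * Real.log V) ^ N *
            Real.exp (BB b L Z z F W y)) := mul_le_mul_of_nonneg_right h3 hprod0
      _ ≤ (C * Real.log V) ^ m * (C2 * (((m : ℝ) + 1) ^ N * (Real.log V) ^ N) *
            (Real.exp (M y) * Real.exp C0 * (l ^ δ)⁻¹)) := by
          apply mul_le_mul_of_nonneg_left _ (by positivity)
          apply mul_le_mul _ h6 (Real.exp_pos _).le (by positivity)
          exact mul_le_mul_of_nonneg_left h4 hC2
      _ = C ^ m * C2 * (m + 1) ^ N * Real.exp C0 * ((Real.log V) ^ (m + N) * (l ^ δ)⁻¹) *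
            Real.exp (M y) := by
          rw [mul_pow, pow_add]
          ring
      _ ≤ C ^ m * C2 * (m + 1) ^ N * Real.exp C0 * C1 * Real.exp (M y) := by
          apply mul_le_mul_of_nonneg_right _ (Real.exp_pos _).le
          apply mul_le_mul_of_nonneg_left _ (by positivity)
          rw [← div_eq_mul_inv, div_le_iff₀ hld]
          exact h5
      _ ≤ _ := by
          have e1 : C ^ m * C2 * ((m : ℝ) + 1) ^ N * Real.exp C0 * C1 * Real.exp (M y) =
              C ^ m * C2 * ((m : ℝ) + 1) ^ N * C1 * Real.exp C0 * Real.exp (M y) := by ring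
          rw [e1, add_mul]
          have : 0 ≤ C2 * Real.exp (M y) := by positivity
          linarith

end

/-- **The refined bound** -/
theorem atx_ofD (hblw : BLW) (he : EPS) (hf : FULLG) (hml : MLD) : ATX1 := by
  intro ι _ _ a b L Z c z δ C0 E0 M hb h
  classical
  obtain ⟨C2, E2, h2⟩ := hblw
  have h2' : BW |C2| E2 := fun V Y hV hVY a b ha hb ha' hb' =>
    (h2 V Y hV hVY a b ha hb ha' hb').trans (by
      apply mul_le_mul_of_nonneg_right _ (by positivity)
      exact mul_le_mul_of_nonneg_right (le_abs_self C2)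
        (pow_nonneg (Real.log_natCast_nonneg Y) _))
  obtain ⟨C, hB⟩ := bd_of (c := c) (z := z) he hf h.ab hb (by have := h.hz; omega) h.hE h.H2
  set A : ℕ := 6 * (Fintype.card ι + 2 * E2) with hA
  have hM0 : ∀ y, z < y → 0 ≤ M y := fun y hy => by
    simpa using h.CA y hy ∅ (by simp)
  have hmain : Gd a L c z M A (fun _ => none) := by
    have e1 : (fun _ : ι => (none : Option (Fin 4))) =
        (fun i => if i ∈ Zᶜ then none else (fun _ => none) i) := by
      funext i
      simp
    rw [e1]
    apply gd_all_set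
    intro ρ
    by_cases ht : ∃ i, i ∈ Zᶜ ∧ ρ i = 3
    · obtain ⟨i, hi, hi3⟩ := ht
      exact gd_tail hB A hM0 _ (k := i) (by simp only [if_pos hi, hi3])
    push Not at ht
    by_cases hp : ∃ i j, i ∈ Zᶜ ∧ j ∈ Zᶜ ∧ ρ i = 2 ∧ ρ j = 2 ∧ L i j ≠ L j i
    · obtain ⟨i, j, hi, hj, hi2, hj2, hij⟩ := hp
      refine gd_pair hB (abs_nonneg C2) h2' h.LL (A := A) le_rfl hM0 _ (i := i) (j := j) ?_ ?_ hij
      · simp only [if_pos hi, hi2]
      · simp only [if_pos hj, hj2]
    push Not at hp
    set π1 : ι → Option (Fin 4) := fun i => if i ∈ Zᶜ then some (ρ i) else none with hπ1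
    set F0 := Zᶜ.filter (fun i => ρ i = 2) with hF0
    set Z1 := Z.filter (fun q => ∃ i ∈ F0, L i q ≠ L q i) with hZ1
    set Z2 := Z.filter (fun q => (∀ i ∈ F0, L i q = L q i) ∧
      ∃ q' ∈ Z, (∀ i ∈ F0, L i q' = L q' i) ∧ L q q' ≠ L q' q) with hZ2
    set Zl := Z1 ∪ Z2 with hZl
    have hZlZ' : ∀ i ∈ Zl, i ∈ Z := by
      intro i hi
      rcases mem_union.1 hi with h' | h'
      · exact (mem_filter.1 h').1
      · exact (mem_filter.1 h').1
    have e2 : π1 = (fun i => if i ∈ Zl then none else π1 i) := by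
      funext i
      by_cases hi : i ∈ Zl
      · have hiZ : i ∈ Z := hZlZ' i hi
        simp [hi, hiZ, hπ1]
      · simp [hi]
    rw [e2]
    apply gd_all_set
    intro σ
    have hZlZ : ∀ i ∈ Zl, i ∉ Zᶜ := fun i hi h' => (mem_compl.1 h') (hZlZ' i hi)
    have hF0Z : ∀ i ∈ F0, i ∉ Zl := fun i hi h' => hZlZ i h' (mem_filter.1 hi).1
    by_cases ht' : ∃ q ∈ Zl, σ q = 3
    · obtain ⟨q, hq, hq3⟩ := ht'
      exact gd_tail hB A hM0 _ (k := q) (by simp only [if_pos hq, hq3])
    push Not at ht'
    by_cases hp' : ∃ q ∈ Z1, σ q = 2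
    · obtain ⟨q, hq, hq2⟩ := hp'
      obtain ⟨i, hi, hiq⟩ := (mem_filter.1 hq).2
      have hi' := mem_filter.1 hi
      have hql : q ∈ Zl := mem_union_left _ hq
      refine gd_pair hB (abs_nonneg C2) h2' h.LL (A := A) le_rfl hM0 _ (i := i) (j := q) ?_ ?_ hiq
      · simp only [if_neg (hF0Z i hi), hπ1, if_pos hi'.1, hi'.2]
      · simp only [if_pos hql, hq2]
    push Not at hp'
    by_cases hp2 : ∃ q q', q ∈ Z2 ∧ q' ∈ Z2 ∧ σ q = 2 ∧ σ q' = 2 ∧ L q q' ≠ L q' q
    · obtain ⟨q, q', hq, hq', hq2, hq2', hqq⟩ := hp2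
      have hql : q ∈ Zl := mem_union_right _ hq
      have hql' : q' ∈ Zl := mem_union_right _ hq'
      refine gd_pair hB (abs_nonneg C2) h2' h.LL (A := A) le_rfl hM0 _ (i := q) (j := q') ?_ ?_ hqq
      · simp only [if_pos hql, hq2]
      · simp only [if_pos hql', hq2']
    push Not at hp2
    set π2 : ι → Option (Fin 4) := fun i => if i ∈ Zl then some (σ i) else π1 i with hπ2
    set F1 := F0 ∪ Z2.filter (fun q => σ q = 2) with hF1
    have e3 : π2 = (fun i => if i ∈ F1 then some 2 else π2 i) := by
      funext i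
      by_cases hi : i ∈ F1
      · simp only [if_pos hi]
        rcases mem_union.1 hi with hi | hi
        · have hi' := mem_filter.1 hi
          simp only [hπ2, if_neg (hF0Z i hi), hπ1, if_pos hi'.1, hi'.2]
        · have hi' := mem_filter.1 hi
          have hil : i ∈ Zl := mem_union_right _ hi'.1
          simp only [hπ2, if_pos hil, hi'.2]
      · simp only [if_neg hi]
    rw [e3]
    apply gd_two_set
    intro τ hτ
    by_cases ht'' : ∃ i ∈ F1, τ i = some 3
    · obtain ⟨i, hi, hi3⟩ := ht''
      exact gd_tail hB A hM0 _ (k := i) (by simp only [if_pos hi, hi3])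
    push Not at ht''
    set π3 : ι → Option (Fin 4) := fun i => if i ∈ F1 then τ i else π2 i with hπ3
    have hF1Z : ∀ i ∈ Zᶜ, i ∉ F0 → i ∉ F1 := by
      intro i hi hi0 h'
      rcases mem_union.1 h' with h' | h'
      · exact hi0 h'
      · exact (mem_compl.1 hi) (mem_filter.1 (mem_filter.1 h').1).1
    -- the kinds
    have k0 : ∀ i ∈ F1, π3 i = τ i := fun i hi => by simp only [hπ3, if_pos hi]
    have k1 : ∀ i ∈ Zᶜ, i ∉ F0 → π3 i = some (ρ i) := fun i hi hi0 => by
      have : i ∉ Zl := fun h' => hZlZ i h' hi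
      simp only [hπ3, if_neg (hF1Z i hi hi0), hπ2, if_neg this, hπ1, if_pos hi]
    have k2 : ∀ i ∈ Zl, i ∉ F1 → π3 i = some (σ i) := fun i hi hi1 => by
      simp only [hπ3, if_neg hi1, hπ2, if_pos hi]
    have k3 : ∀ i ∈ Z, i ∉ Zl → π3 i = none := fun i hi hil => by
      have h1 : i ∉ Zᶜ := fun h' => (mem_compl.1 h') hi
      have h3 : i ∉ F1 := by
        intro h'
        rcases mem_union.1 h' with h' | h'
        · exact h1 (mem_filter.1 h').1
        · exact hil (mem_union_right _ (mem_filter.1 h').1)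
      simp only [hπ3, if_neg h3, hπ2, if_neg hil, hπ1, if_neg h1]
    have hkinds : ∀ i, π3 i = none ∨ π3 i = some 0 ∨ π3 i = some 1 := by
      intro i
      by_cases hi1 : i ∈ F1
      · rw [k0 i hi1]
        have h1 := hτ i hi1
        have h3 := ht'' i hi1
        revert h1 h3
        generalize τ i = r
        revert r
        decide
      by_cases hiZ : i ∈ Z
      · by_cases hil : i ∈ Zl
        · rw [k2 i hil hi1]
          have h1 := ht' i hil
          have h3 : σ i ≠ 2 := by
            intro h'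
            rcases mem_union.1 hil with h4 | h4
            · exact hp' i h4 h'
            · exact hi1 (mem_union_right _ (mem_filter.2 ⟨h4, h'⟩))
          revert h1 h3
          generalize σ i = r
          revert r
          decide
        · exact Or.inl (k3 i hiZ hil)
      · have hiC := mem_compl.2 hiZ
        have hi0 : i ∉ F0 := fun h' => hi1 (mem_union_left _ h')
        rw [k1 i hiC hi0]
        have h1 := ht i hiC
        have h3 : ρ i ≠ 2 := fun h' => hi0 (mem_filter.2 ⟨hiC, h'⟩)
        revert h1 h3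
        generalize ρ i = r
        revert r
        decide
    -- the unlinked set
    have hFs : ∀ i, π3 i = none → i ∈ F1 ∨ (i ∈ Z ∧ i ∉ Zl) := by
      intro i hi
      by_cases hi1 : i ∈ F1
      · exact Or.inl hi1
      · right
        by_cases hiZ : i ∈ Z
        · refine ⟨hiZ, fun hil => ?_⟩
          rw [k2 i hil hi1] at hi
          exact absurd hi (by simp)
        · rw [k1 i (mem_compl.2 hiZ) (fun h' => hi1 (mem_union_left _ h'))] at hi
          exact absurd hi (by simp)
    -- the elements of `Z`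
    have hQ : ∀ i, (i ∈ F1 ∨ (i ∈ Z ∧ i ∉ Zl)) → i ∈ F0 ∨ (i ∈ Z ∧ (∀ k ∈ F0, L k i = L i k) ∧
        (i ∈ Z2 → σ i = 2)) := by
      rintro i (hi | hi)
      · rcases mem_union.1 hi with hi | hi
        · exact Or.inl hi
        · right
          have h1 := mem_filter.1 hi
          have h3 := mem_filter.1 h1.1
          exact ⟨h3.1, h3.2.1, fun _ => h1.2⟩
      · right
        refine ⟨hi.1, fun k hk => ?_, fun h' => absurd (mem_union_right _ h') hi.2⟩
        by_contra hne
        exact hi.2 (mem_union_left _ (mem_filter.2 ⟨hi.1, k, hk, hne⟩))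
    have hun : ∀ i j, (i ∈ F1 ∨ (i ∈ Z ∧ i ∉ Zl)) → (j ∈ F1 ∨ (j ∈ Z ∧ j ∉ Zl)) →
        L i j = L j i := by
      intro i j hi hj
      rcases hQ i hi with hi | hi
      · rcases hQ j hj with hj | hj
        · have hi' := mem_filter.1 hi
          have hj' := mem_filter.1 hj
          exact hp i j hi'.1 hj'.1 hi'.2 hj'.2
        · exact hj.2.1 i hi
      · rcases hQ j hj with hj | hj
        · exact (hi.2.1 j hj).symm
        · by_contra hne
          have h1 : i ∈ Z2 := mem_filter.2 ⟨hi.1, hi.2.1, j, hj.1, hj.2.1, hne⟩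
          have h3 : j ∈ Z2 := mem_filter.2 ⟨hj.1, hj.2.1, i, hi.1, hi.2.1, fun h' => hne h'.symm⟩
          exact hne (hp2 i j h1 h3 (hi.2.2 h1) (hj.2.2 h3))
    apply gd_finD hml hB hb h A π3 hkinds (fun i j hi hj => hun i j (hFs i hi) (hFs j hj))
    by_cases hW : ∀ i, π3 i ≠ some 1
    · exact Or.inr hW
    left
    push Not at hW
    intro y hy
    set F := univ.filter (fun i => π3 i = none) with hF
    set W := univ.filter (fun i => π3 i = some 1) with hWd
    have hFu : ∀ i ∈ F, ∀ j ∈ F, L i j = L j i := fun i hi j hj =>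
      hun i j (hFs i (mem_filter.1 hi).2) (hFs j (mem_filter.1 hj).2)
    have hdis : Disjoint F W := by
      rw [Finset.disjoint_left]
      intro i hi hi'
      have h1 := (mem_filter.1 hi).2
      have h3 := (mem_filter.1 hi').2
      rw [h1] at h3
      exact absurd h3 (by simp)
    by_cases hq : ∃ w ∈ W, ¬ (w ∈ Z ∧ Unc L w (F ∪ W))
    · have hCB := h.CB y hy F W hdis hFu hq
      unfold BB
      convert hCB using 2
      ext i
      simp only [mem_filter]
    push Not at hq
    obtain ⟨w, hw⟩ := hW
    have hwW : w ∈ W := mem_filter.2 ⟨mem_univ w, hw⟩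
    obtain ⟨hwZ, hwU⟩ := hq w hwW
    have hwl : w ∈ Zl := by
      by_contra hwl
      rw [k3 w hwZ hwl] at hw
      exact absurd hw (by simp)
    rcases mem_union.1 hwl with hwl | hwl
    swap
    · obtain ⟨-, q, hqZ, hqF, hwq⟩ := mem_filter.1 hwl |>.2
      have hCD := h.CD y hy F W hdis hFu hq ⟨w, hwW, q, hqZ, hwq, fun i hi hiZ => by
        rcases hFs i (mem_filter.1 hi).2 with h1 | h1
        · rcases mem_union.1 h1 with h1 | h1
          · exact hqF i h1
          · exact absurd (mem_filter.1 (mem_filter.1 h1).1).1 hiZ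
        · exact absurd h1.1 hiZ⟩
      unfold BB
      convert hCD using 2
      ext i
      simp only [mem_filter]
    obtain ⟨i, hi, hiw⟩ := (mem_filter.1 hwl).2
    have hi' := mem_filter.1 hi
    have hiF : i ∉ F := by
      intro h'
      have := hwU i (mem_union_left _ h')
      rw [this.1, this.2] at hiw
      exact hiw rfl
    have hCA := h.CA y hy (insert i F) (by
      intro j hj k hk
      have hs : ∀ j ∈ insert i F, j ∈ F1 ∨ (j ∈ Z ∧ j ∉ Zl) := by
        intro j hj
        rcases mem_insert.1 hj with h1 | h1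
        · exact Or.inl (mem_union_left _ (h1 ▸ hi))
        · exact hFs j (mem_filter.1 h1).2
      exact hun j k (hs j hj) (hs k hk))
    have hlow := h.low i y hy
    have hSi : ∀ j, 0 ≤ Sp (b j) z y := fun j => Sp_nonneg hB j y
    have hsub : insert i (F.filter (fun j => (∀ w ∈ W, L j w = L w j) ∧
        ¬ (j ∈ Z ∧ Unc L j (F ∪ W)))) ⊆
        (insert i F).filter (fun j => ¬ (j ∈ Z ∧ Unc L j (insert i F))) := by
      intro j hj
      rcases mem_insert.1 hj with h1 | h1
      · subst h1
        refine mem_filter.2 ⟨mem_insert_self _ _, fun h' => ?_⟩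
        exact (mem_compl.1 hi'.1) h'.1
      · obtain ⟨h3, h4, h5⟩ := mem_filter.1 h1
        refine mem_filter.2 ⟨mem_insert_of_mem h3, fun h' => h5 ⟨h'.1, ?_⟩⟩
        intro k hk
        rcases mem_union.1 hk with hk | hk
        · exact h'.2 k (mem_insert_of_mem hk)
        · have h6 := (hq k hk).2 j (mem_union_left _ h3)
          exact ⟨h6.2, h6.1⟩
    have hle := sum_le_sum_of_subset_of_nonneg hsub
      (f := fun j => Sp (b j) z y) (fun j _ _ => hSi j)
    rw [sum_insert (fun h' => hiF (mem_filter.1 h').1)] at hle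
    unfold BB
    have hCA' : ∑ j ∈ (insert i F).filter (fun j => ¬ (j ∈ Z ∧ Unc L j (insert i F))),
        Sp (b j) z y ≤ M y := hCA
    linarith
  obtain ⟨C', hC'⟩ := hmain
  refine ⟨C', fun y hy => ?_⟩
  rw [ATS8.total_eq]
  exact hC' y hy

end Pool.Agent.N222.D
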