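import Mathlib
import Pool.Agent.N222.D.ATXA
import Pool.Agent.TH841.TR.ATXR
import Pool.Agent.TH841.TR.EUL
import Pool.Agent.TH841.TR.SYMD
import Pool.Agent.TH841.PT.Merge
import Pool.Agent.TH841.PT.EFG
import Pool.Agent.TH841.PT.EPS
import Pool.Agent.W37.RK.BL2
import Pool.Agent.W505.RK.LS
import Pool.Agent.W655.RK.Blw

/-!
# Project D (helper870), ATX: the refined bound for larger weights, without ZZ
(a modification of TH841/TR/ATXR.lean)

Each variable is split into `R` variables with the weights divided by `R`.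
-/

set_option autoImplicit false
set_option linter.unusedSectionVars false

namespace Pool.Agent.N222.D

open Finset Polynomial Pool.Agent.W262.RK Pool.Agent.TH841.PT Pool.Agent.TH841.TR
  Pool.Agent.TH841.TR.ATXRf Pool.Agent.N870.D

theorem CD_lift {ι : Type} [DecidableEq ι] {R : ℕ} (L : ι → ι → Bool) (Z : Finset ι) (S : ι → ℝ)
    (hS : ∀ i, 0 ≤ S i) (M2 M3 : ℝ) (hR : 1 ≤ R) (h2 : Pool.Agent.N870.D.CD L Z S M2)
    (h23 : M2 ≤ M3) :
    Pool.Agent.N870.D.CD (fun x y : ι × Fin R => L x.1 y.1) (Z ×ˢ univ) (fun x => S x.1 / R) M3 := by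
  intro F' W' hd hF hW ⟨w0, hw0, q0, hq0, hne, hq⟩
  obtain ⟨F, hFd⟩ : ∃ F, F = F'.image Prod.fst := ⟨_, rfl⟩
  obtain ⟨W, hWd⟩ : ∃ W, W = W'.image Prod.fst := ⟨_, rfl⟩
  have hFW : (F' ∪ W').image Prod.fst = F ∪ W := by rw [hFd, hWd]; exact image_union _ _
  have hU : F \ W ∪ W = F ∪ W := sdiff_union_self_eq_union
  have hSR : ∀ x : ι × Fin R, 0 ≤ S x.1 / R := fun x => div_nonneg (hS _) (Nat.cast_nonneg _)
  have hW2 : ∀ w ∈ W, w ∈ Z ∧ Unc L w (F ∪ W) := by
    intro w hw
    rw [hWd] at hw
    obtain ⟨y, hy, rfl⟩ := mem_image.1 hw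
    have h3 := hW y hy
    rw [mem_lift, unc_lift, hFW] at h3
    exact h3
  refine le_trans ?_ ((h2 (F \ W) W sdiff_disjoint ?_ ?_ ?_).trans h23)
  · rw [← sum_lift S hR]
    refine sum_le_sum_of_subset_of_nonneg ?_ fun x _ _ => hSR x
    intro x hx
    rw [mem_filter, mem_lift, unc_lift, hFW] at hx
    rw [mem_product, mem_filter, hU, mem_sdiff]
    have hxF : x.1 ∈ F := by rw [hFd]; exact mem_image_of_mem _ hx.1
    refine ⟨⟨⟨hxF, fun hxW => hx.2.2 (hW2 x.1 hxW)⟩, fun w hw => ?_, hx.2.2⟩, mem_univ _⟩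
    rw [hWd] at hw
    obtain ⟨y, hy, rfl⟩ := mem_image.1 hw
    exact hx.2.1 y hy
  · intro i hi j hj
    have hi' := (mem_sdiff.1 hi).1
    have hj' := (mem_sdiff.1 hj).1
    rw [hFd] at hi' hj'
    obtain ⟨x, hx, rfl⟩ := mem_image.1 hi'
    obtain ⟨y, hy, rfl⟩ := mem_image.1 hj'
    exact hF x hx y hy
  · rw [hU]
    exact hW2
  · refine ⟨w0.1, by rw [hWd]; exact mem_image_of_mem _ hw0, q0.1, (mem_lift Z q0).1 hq0, hne,
      fun i hi hiZ => ?_⟩
    have hi' := (mem_sdiff.1 hi).1
    rw [hFd] at hi'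
    obtain ⟨x, hx, rfl⟩ := mem_image.1 hi'
    exact hq x hx (fun h' => hiZ ((mem_lift Z x).1 h'))

theorem atxr_ofD (h : ATX1) (hm : Pool.Agent.TH841.PT.MERGE) : ATXD := by
  intro R hR ι _ _ a b L Z c z δ C0 E0 M hb H hz
  have hR0 : (0 : ℝ) < R := by exact_mod_cast hR
  have hR1 : (1 : ℝ) ≤ R := by exact_mod_cast hR
  have hb0 : ∀ i p, 0 ≤ b i p := fun i p => (abs_nonneg _).trans (H.ab i p)
  have hS0 : ∀ i y, 0 ≤ Sp (b i) z y := fun i y => Sp_nonneg (hb0 i) _ _
  have hSp : ∀ i y, Sp (fun p => b i p / R) z y = Sp (b i) z y / R := by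
    intro i y
    unfold Sp
    rw [sum_div]
    exact sum_congr rfl fun p _ => by ring
  have hC0R : C0 / R ≤ C0 := div_le_self H.hC hR1
  have hll : ∀ y, z < y → 0 ≤ Real.log (Real.log y) := by
    intro y hy
    apply ATXRf.loglog_nonneg
    have := H.hz
    omega
  have hdl : ∀ i y, z < y → δ / R * Real.log (Real.log y) ≤ Sp (b i) z y / R + C0 := by
    intro i y hy
    have h1 := div_le_div_of_nonneg_right (H.low i y hy) hR0.le
    rw [add_div] at h1
    calc δ / R * Real.log (Real.log y) = δ * Real.log (Real.log y) / R := by ring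
      _ ≤ Sp (b i) z y / R + C0 / R := h1
      _ ≤ _ := by linarith
  obtain ⟨C, hC⟩ := h (ι × Fin R) (fun x p => a x.1 p / R) (fun x p => b x.1 p / R)
    (fun x y => L x.1 y.1) (Z ×ˢ univ) c z (δ / R) C0 (E0 / R) M
    (by
      intro x p
      show b x.1 p / R ≤ 1 / 2
      rw [div_le_iff₀ hR0]
      have := hb x.1 p
      linarith)
    { ab := by
        intro x p
        show |a x.1 p / R| ≤ b x.1 p / R
        rw [abs_div, abs_of_pos hR0]
        exact div_le_div_of_nonneg_right (H.ab x.1 p) hR0.le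
      LL := fun x => H.LL x.1
      hz := by
        rw [Fintype.card_prod, Fintype.card_fin]
        exact hz
      hδ := div_pos H.hδ hR0
      hE := div_nonneg H.hE hR0.le
      hC := H.hC
      low := by
        intro x y hy
        show δ / R * Real.log (Real.log y) ≤ Sp (fun p => b x.1 p / R) z y + C0
        rw [hSp]
        exact hdl x.1 y hy
      H1 := by
        intro q hq y hy
        have h1 := div_le_div_of_nonneg_right (H.H1 q.1 ((mem_lift Z q).1 hq) y hy) hR0.le
        rw [sum_div] at h1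
        have h5 : ∑ p ∈ PS z y, a q.1 p / R / (p : ℝ) = ∑ p ∈ PS z y, a q.1 p / (p : ℝ) / R :=
          sum_congr rfl fun p _ => by ring
        show ∑ p ∈ PS z y, a q.1 p / R / (p : ℝ) ≤ C0
        rw [h5]
        exact h1.trans hC0R
      H2 := by
        intro x y n e hy hn hsq hpn
        have h4 := div_le_div_of_nonneg_right (H.H2 x.1 y n e hy hn hsq hpn) hR0.le
        rw [sum_div, add_div] at h4
        have h5 : ∑ p ∈ PS z y, a x.1 p / R * (Jr p n * x4 e p) / (p : ℝ) =
            ∑ p ∈ PS z y, a x.1 p * (Jr p n * x4 e p) / (p : ℝ) / R :=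
          sum_congr rfl fun p _ => by ring
        have h7 : E0 * Real.log (Real.log n) / R = E0 / R * Real.log (Real.log n) := by ring
        show ∑ p ∈ PS z y, a x.1 p / R * (Jr p n * x4 e p) / (p : ℝ) ≤
          E0 / R * Real.log (Real.log n) + C0
        rw [h5]
        rw [h7] at h4
        linarith
      CA := by
        intro y hy
        have h1 := CA_lift (R := R) L Z (fun i => Sp (b i) z y) (fun i => hS0 i y) (M y) hR
          (H.CA y hy)
        show CA _ _ (fun x : ι × Fin R => Sp (fun p => b x.1 p / R) z y) _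
        simp only [hSp]
        exact h1
      CB := by
        intro y hy
        have h1 := CB_lift (R := R) L Z (fun i => Sp (b i) z y) (fun i => hS0 i y) (M y)
          (M y + C0 - δ * Real.log (Real.log y)) (M y + C0 - δ / R * Real.log (Real.log y)) hR
          (H.CA y hy) (H.CB y hy)
          (by
            have h2 : δ / R * Real.log (Real.log y) ≤ δ * Real.log (Real.log y) :=
              mul_le_mul_of_nonneg_right (div_le_self H.hδ.le hR1) (hll y hy)
            linarith)
          (by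
            intro i
            have h2 := hdl i y hy
            show M y - Sp (b i) z y / R ≤ _
            linarith)
        show CB _ _ (fun x : ι × Fin R => Sp (fun p => b x.1 p / R) z y) _
        simp only [hSp]
        exact h1
      CD := by
        intro y hy
        have h1 := CD_lift (R := R) L Z (fun i => Sp (b i) z y) (fun i => hS0 i y)
          (M y + C0 - δ * Real.log (Real.log y)) (M y + C0 - δ / R * Real.log (Real.log y)) hR
          (H.CD y hy)
          (by
            have h2 : δ / R * Real.log (Real.log y) ≤ δ * Real.log (Real.log y) :=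
              mul_le_mul_of_nonneg_right (div_le_self H.hδ.le hR1) (hll y hy)
            linarith)
        show Pool.Agent.N870.D.CD _ _ (fun x : ι × Fin R => Sp (fun p => b x.1 p / R) z y) _
        simp only [hSp]
        exact h1 }
  refine ⟨C, fun y hy => ?_⟩
  have h4 := hm ι (Fin R) (fun x p => a x.1 p / R) c z y (fun d => Sym L (fun _ => 1) d)
  have h5 : ∀ i, (fun p => ∑ _θ : Fin R, a i p / (R : ℝ)) = a i := by
    intro i
    funext p
    rw [sum_const, card_univ, Fintype.card_fin, nsmul_eq_mul]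
    field_simp
  simp only [h5] at h4
  rw [← h4]
  refine le_trans (le_of_eq ?_) (hC y hy)
  congr 1
  refine sum_congr rfl fun d hd => ?_
  congr 1
  exact (Sym_merge L (fun _ => 1) d fun x => Tup_ne hd x).symm

/-- **ATX** -/
theorem t_ATX : Pool.Agent.N870.D.ATXD :=
  atxr_ofD (atx_ofD (Pool.Agent.W655.RK.blw_of (_root_.W37.RK.bl_of Pool.Agent.W505.RK.ls))
    EPSf.eps EFG.fullg (mld_of (SYMDf.symd_of EULf.eul))) MergeF.merge

end Pool.Agent.N222.D
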